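import Pool.Agent.N790.CM.C
import Pool.Agent.T9h59.SQ.Count2

/-!
# Differences of square roots of consecutive primes near all multiples of Carmichael's function

`d_n = √p_{n+1} - √p_n`. The question is whether `d_n → 0`. For almost all `m` (all `m ≤ x` but `x / (log x)^U`) and EVERY
multiple `w ≤ x^B` of Carmichael's function `λ(m)`, `d_n ≤ n^(-η)` for ALL `n ≥ 1` with `|n - G w| ≤ w^κ`, if
`B (d s + κ) < 1`, where
`s = 1/2 + η`, or `s = 0.306` if `η ≤ η₁` (`η₁ > 0` a constant). Here `G` has steps bounded below by a positive constant and growth at most `v^d`, for example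
`G(v) = v`; so for almost all `m` and all multiples `w ≤ m^3.26` of `λ(m)` the difference `d_w` is at most `w^(-δ)`. More
generally `w` is any common multiple of the values `f(p)`, `p` running through the large primes which divide `m` exactly once,
where `f` takes each positive value at boundedly many primes.

A single `m` has a power of `x` multiples of this kind, and a single `w ≤ x^B` can be a multiple of `λ(m)` for more than
`x^(1 - ε)` numbers `m ≤ x`. So this does not follow from the size of the exceptional set.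

Method: the sum of the `d_n` telescopes, which bounds the number of the exceptional `n`, and for small `η` the exponent
`0.306` of the starting library (`Q278.KT`, few poor intervals); and the tool `N790/CM` (starting
library).
-/

set_option autoImplicit false

namespace Pool.Agent.Results.MP_3998cf_nt.CarmichaelMultiples

open Finset
open Pool.Agent.N733.TG (Expanding expanding_pow)
open Pool.Agent.N790.CM (FewTimes Carries keep_win_nat fewTimes_pred pred_dvd_carmichael)
open Pool.Agent.T9h59.SQ (dsq Small count_rate)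

/-- **Differences of square roots of consecutive primes near the multiples of Carmichael's function.** Let `G` have steps
`≥ a > 0` and growth at most `v^d`, let `η, κ ≥ 0`, `B ≥ 1`, `B (d s + κ) < 1`, where
`s = 1/2 + η`, or `s = 0.306` if `η ≤ η₁` (`η₁ > 0` a constant), and let `f` take each positive value at
most `T` times at the primes. For every `U` and all large `x`, for all `m ≤ x` but `x / (log x)^U`: for EVERY `w` with
`1 ≤ w ≤ x^B` and `f(p) ∣ w` for all primes `p > exp (√(log x))` which divide `m` exactly once, `√p_{n+1} - √p_n ≤ n^(-η)` for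
ALL `n ≥ 1` with `|n - G w| ≤ w^κ`. The function `f(p) = p - 1` takes each value at most once, and every multiple of
Carmichael's function `λ(m)` is divisible by `p - 1` for all `p ∣ m`; and `α v^d` with `α > 0`, `d ≥ 1` is an example of
`G`. -/
theorem result :
    (∃ η₁ : ℝ, 0 < η₁ ∧ ∀ η s : ℝ, 0 ≤ η → (s = 1 / 2 + η ∨ η ≤ η₁ ∧ s = 0.306) →
      ∀ (G : ℕ → ℝ) (d : ℝ), Expanding G d → ∀ κ B : ℝ, 0 ≤ κ → 1 ≤ B →
      B * (d * s + κ) < 1 → ∀ (f : ℕ → ℕ) (T : ℕ), FewTimes f T → ∀ U : ℕ, ∃ N₀ : ℕ, ∀ N : ℕ, N₀ ≤ N →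
        ({m : ℕ | 1 ≤ m ∧ m ≤ N ∧ ¬ ∀ w : ℕ, 1 ≤ w → (w : ℝ) ≤ (N : ℝ) ^ B →
          Carries f (Real.exp √(Real.log N)) m w →
          ∀ n : ℕ, 1 ≤ n → |(n : ℝ) - G w| ≤ (w : ℝ) ^ κ → dsq n ≤ (n : ℝ) ^ (-η)}.ncard : ℝ) ≤
        N / Real.log N ^ U) ∧
    (FewTimes (fun p => p - 1) 1 ∧
      ∀ (y : ℝ) (m w : ℕ), ArithmeticFunction.carmichael m ∣ w → Carries (fun p => p - 1) y m w) ∧
    ∀ α d : ℝ, 0 < α → 1 ≤ d → Expanding (fun v => α * (v : ℝ) ^ d) d := by
  classical
  obtain ⟨η₁, hη₁, hr⟩ := count_rate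
  refine ⟨⟨η₁, hη₁, fun η s hη hs G d hG κ B hκ hB h1 => ?_⟩,
    ⟨fewTimes_pred, fun y m w h p hp _ hpm _ => (pred_dvd_carmichael hp hpm).trans h⟩,
    fun α d hα hd => expanding_pow hα hd⟩
  obtain ⟨hs0, hcount⟩ := hr η s hη hs
  refine (keep_win_nat {n : ℕ | ¬ Small η n} hG (s := s) (κ := κ) hs0 hκ hB h1
    (fun ε hε => by
      obtain ⟨C, hC⟩ := hcount ε hε
      refine ⟨C, fun X hX => le_trans (le_of_eq ?_) (hC X hX)⟩
      congr 1
      rw [← Set.ncard_coe_finset]
      congr 1
      ext t
      simp only [coe_filter, mem_Ioc, Set.mem_ofPred_eq]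
      constructor
      · rintro ⟨⟨h1, h2⟩, h3⟩
        exact ⟨h1, h2, h3⟩
      · rintro ⟨h1, h2, h3⟩
        exact ⟨⟨h1, h2⟩, h3⟩)).mono ?_
  intro w _ hw n _ hnear
  by_contra hg
  exact hw n (Or.inr hg) hnear

end Pool.Agent.Results.MP_3998cf_nt.CarmichaelMultiples
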