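import Pool.Agent.N251.LF.Win
import Pool.Agent.N251.LF.Fields
import Pool.Agent.T9h59.SQ.Count2

/-!
# Differences of square roots of consecutive primes near the values of generic polynomials and linear forms

`d_n = √p_{n+1} - √p_n`. The question is whether `d_n → 0`. Let `v` be a family of vectors in `ℝ^k` with `O_ε(X^(τ + ε))` members
of norm at most `X`, and let `η ≥ 0`, `θ < 1`. There is a set `E` of Hausdorff dimension at most
`k - 1 + (s + τ) / (1 - θ)`, `s = 1/2 + η`, or `s = 0.306` if `η ≤ η₁` (`η₁ > 0` a constant),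
such that for all `α` outside `E` and all `c`, for all but finitely many `i`,
`d_n ≤ n^(-η)` for ALL `n ≥ 1` with `|n - α · v_i| ≤ c ‖v_i‖^θ`. So this holds for almost all real polynomials of degree `D` and
the `n` near their values at the natural numbers, if `s + 1/D + θ < 1`; for instance for `D = 2` and `θ < 0.194`.

Method: the sum of the `d_n` telescopes, which bounds the number of the exceptional `n`, and for small `η` the exponent
`0.306` of the starting library (`Q278.KT`, few poor intervals); and the windows of `N251/LF`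
(starting library).
-/

set_option autoImplicit false

namespace Pool.Agent.Results.MP_3998cf_nt.GenericLinearForms

open Finset
open Pool.Agent.N251.LF (Fam Sq linear_good_nat)
open Pool.Agent.T9h59.SQ (dsq Small count_rate)

/-- **Differences of square roots of consecutive primes near the values of generic polynomials and linear forms.** For every
family `v` of vectors in `ℝ^k` with `O_ε(X^(τ + ε))` members of norm at most `X`, and all `η ≥ 0`, `θ < 1`, there is a set `E` of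
Hausdorff dimension at most `k - 1 + (s + τ) / (1 - θ)`, `s = 1/2 + η`, or `s = 0.306` if `η ≤ η₁` (`η₁ > 0` a constant),
such that for all `α` outside `E` and all `c`, for all but
finitely many `i`: `√p_{n+1} - √p_n ≤ n^(-η)` for ALL `n ≥ 1` with `|n - α · v_i| ≤ c ‖v_i‖^θ`. Examples of the families. -/
theorem result :
    (∃ η₁ : ℝ, 0 < η₁ ∧ ∀ η s : ℝ, 0 ≤ η → (s = 1 / 2 + η ∨ η ≤ η₁ ∧ s = 0.306) →
      ∀ (k : ℕ) (ι : Type) (v : ι → Fin k → ℝ) (τ θ : ℝ), Fam v τ → 0 ≤ τ → θ < 1 →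
      ∃ E : Set (Fin k → ℝ), dimH E ≤ ENNReal.ofReal ((k : ℝ) - 1 + (s + τ) / (1 - θ)) ∧
        ∀ α, α ∉ E → ∀ c : ℝ,
          {i | ¬ ∀ n : ℕ, 1 ≤ n → |(n : ℝ) - ∑ j, α j * v i j| ≤ c * ‖v i‖ ^ θ →
            dsq n ≤ (n : ℝ) ^ (-η)}.Finite) ∧
    (∀ d : ℕ, 1 ≤ d → Fam (fun (n : ℕ) (j : Fin (d + 1)) => (n : ℝ) ^ (j : ℕ)) (1 / d)) ∧
    (∀ (k : ℕ) (b : Fin k → ℝ), (∀ j, 1 < b j) → Fam (fun (n : Fin k → ℕ) (j : Fin k) => b j ^ n j) 0) ∧
    (∀ (k : ℕ) (a : Fin k → ℝ), (∀ j, 0 < a j) →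
      Fam (fun (n : Fin k → ℕ) (j : Fin k) => (n j : ℝ) ^ a j) (∑ j, 1 / a j)) ∧
    ∀ (k : ℕ) (u : Fin k → ℕ → ℝ) (τ : Fin k → ℝ), (∀ j, Sq (u j) (τ j)) →
      Fam (fun (n : Fin k → ℕ) (j : Fin k) => u j (n j)) (∑ j, τ j) := by
  obtain ⟨η₁, hη₁, hr⟩ := count_rate
  refine ⟨⟨η₁, hη₁, fun η s hη hs k ι v τ θ hv hτ hθ => ?_⟩, Pool.Agent.N251.LF.examples⟩
  obtain ⟨hs0, hcount⟩ := hr η s hη hs
  obtain ⟨E, h1, h2⟩ := linear_good_nat (fun _ => True) (Small η) v (s := s) hs0 hτ hθ hv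
    (fun ε hε => by
      obtain ⟨C, hC⟩ := hcount ε hε
      refine ⟨C, fun X hX => ?_⟩
      simpa using hC X hX)
  refine ⟨E, h1, fun α hα c => (h2 α hα c).subset ?_⟩
  intro i hi hcon
  exact hi (fun n hn h3 => hcon n hn trivial h3)

end Pool.Agent.Results.MP_3998cf_nt.GenericLinearForms
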