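import Pool.Agent.T9h59.OR.C
import Pool.Agent.T9h59.SQ.Count2

/-!
# Differences of square roots of consecutive primes near the orders of the subgroups of `F_p^*` and of integers modulo `p`

`d_n = √p_{n+1} - √p_n`. The question is whether `d_n → 0`. Let `G` be a real sequence with steps bounded below by a positive
constant and growth at most `v^d`, let `η, κ ≥ 0`, `σ = d s + κ < 1`, where
`s = 1/2 + η`, or `s = 0.306` if `η ≤ η₁` (`η₁ > 0` a constant), and `0 ≤ c < 1`. For all primes `p ≤ X` but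
`O(X^(1 - ρ))`, `ρ < (1 - c) (1 - σ) / 2`: for ALL subgroups of `F_p^*` which contain an integer `a`, `2 ≤ a ≤ X^c`, for example
those generated by such an integer, `d_n ≤ n^(-η)` for ALL `n ≥ 1` with `|n - G w| ≤ w^κ`, `w` the order of the subgroup.
The number of the `w` which occur is not restricted, one prime has many subgroups of this kind, and one `w` can occur for
many primes; the proof counts the primes with `p ∣ a ^ w - 1` for small `w`, and the cofactors `(p - 1) / w` for large `w`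
(`T9h59/OR`).

The number of the exceptional `n` is bounded by the fact that the sum of the `d_n` telescopes, and for small `η` by the
exponent `0.306` of the starting library (`Q278.KT`, few poor intervals).
-/

set_option autoImplicit false

namespace Pool.Agent.Results.MP_3998cf_nt.SubgroupOrders

open Pool.Agent.N733.TG (Expanding expanding_pow)
open Pool.Agent.T9h59.OR (SubOrder sub_good_nat subOrder_orderOf)
open Pool.Agent.T9h59.SQ (dsq count_rate)

/-- **Differences of square roots of consecutive primes near the orders of subgroups of `F_p^*`.** Let `G` have steps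
`≥ a > 0` and growth at most `v ^ d`, let `η, κ ≥ 0`, `σ = d s + κ < 1`, where
`s = 1/2 + η`, or `s = 0.306` if `η ≤ η₁` (`η₁ > 0` a constant), `0 ≤ c < 1` and `ρ < (1 - c) (1 - σ) / 2`. For
all primes `p ≤ X` but `C X^(1 - ρ)`: for the order `w` of EVERY subgroup of `F_p^*` which contains an integer `a`,
`2 ≤ a ≤ X^c` (`SubOrder (X ^ c) p w`), for ALL `n ≥ 1` with `|n - G w| ≤ w ^ κ`: `√p_{n+1} - √p_n ≤ n^(-η)`. The order of `a`
modulo `p` is such a number `w`, and `α v ^ d` with `α > 0`, `d ≥ 1` is an example of `G`. -/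
theorem result :
    (∃ η₁ : ℝ, 0 < η₁ ∧ ∀ η s : ℝ, 0 ≤ η → (s = 1 / 2 + η ∨ η ≤ η₁ ∧ s = 0.306) →
      ∀ (G : ℕ → ℝ) (d κ : ℝ), Expanding G d → 0 ≤ κ → d * s + κ < 1 →
      ∀ c ρ : ℝ, 0 ≤ c → c < 1 → ρ < (1 - c) * (1 - (d * s + κ)) / 2 → ∃ C : ℝ, ∀ X : ℕ, 1 ≤ X →
      ({p : ℕ | p.Prime ∧ p ≤ X ∧ ¬ ∀ w, SubOrder ((X : ℝ) ^ c) p w → ∀ n : ℕ, 1 ≤ n →
        |(n : ℝ) - G w| ≤ (w : ℝ) ^ κ → dsq n ≤ (n : ℝ) ^ (-η)}.ncard : ℝ) ≤ C * (X : ℝ) ^ (1 - ρ)) ∧
    (∀ (B : ℝ) (p a : ℕ), p.Prime → 2 ≤ a → (a : ℝ) ≤ B → ¬ p ∣ a → SubOrder B p (orderOf (a : ZMod p))) ∧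
    ∀ α d : ℝ, 0 < α → 1 ≤ d → Expanding (fun v => α * (v : ℝ) ^ d) d := by
  obtain ⟨η₁, hη₁, hr⟩ := count_rate
  refine ⟨⟨η₁, hη₁, fun η s hη hs G d κ hG hκ h1 c ρ hc0 hc1 hρ => ?_⟩,
    fun B p a hp ha haB hpa => subOrder_orderOf hp ha haB hpa, fun α d hα hd => expanding_pow hα hd⟩
  obtain ⟨hs0, hcount⟩ := hr η s hη hs
  obtain ⟨C, hC⟩ := sub_good_nat (fun _ => True) (Pool.Agent.T9h59.SQ.Small η) hG (s := s) hs0 hκ h1
    (fun ε hε => by
      obtain ⟨C, hC⟩ := hcount ε hε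
      refine ⟨C, fun X hX => ?_⟩
      simpa using hC X hX) hc0 hc1 hρ
  refine ⟨C, fun X hX => le_trans (le_of_eq ?_) (hC X hX)⟩
  congr 2
  ext p
  simp [Pool.Agent.T9h59.SQ.Small]

end Pool.Agent.Results.MP_3998cf_nt.SubgroupOrders
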