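import Pool.Agent.N760.IT.C
import Pool.Agent.T9h59.SQ.Count2

/-!
# Differences of square roots of consecutive primes along the orbits of Euler's function

`d_n = √p_{n+1} - √p_n`. The question is whether `d_n → 0`. Let `f` be a positive multiplicative function of at most polynomial
growth which is injective and at most `M p` at the large primes `p` (for instance the identity, Euler's function or the sum of
the divisors). Let `G` be a real sequence with steps bounded below by a positive constant and growth at most `v^d`, let
`η, κ ≥ 0` and let `s = 1/2 + η`, or `s = 0.306` if `η ≤ η₁`, `η₁ > 0` a constant; let `d s + κ < 1`. There is `K(m)` tending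
to infinity such that for almost all `m`, for all `k ≤ K(m)`, with `v = f(φ_k(m))`, `φ_k` the `k`-th iterate of Euler's
function, `d_n ≤ n^(-η)` for ALL `n ≥ 1` with `|n - G v| ≤ v^κ`. The values of the iterates form a thin set and are taken with
very large multiplicities, so this does not follow from the number of the `n` with large `d_n`.

Method: the sum of the `d_n` telescopes, which bounds the number of the exceptional `n`, and for small `η` the exponent
`0.306` of the starting library (`Q278.KT`, few poor intervals); and the iteration method of `N760/IT` (starting library).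
-/

set_option autoImplicit false

namespace Pool.Agent.Results.MP_3998cf_nt.TotientOrbits

open Finset Filter
open Pool.Agent.N733.TG (LM Expanding lm_totient lm_sigma expanding_pow)
open Pool.Agent.N760.IT (orb lm_id)
open Pool.Agent.N826.IT.Orb (AlmostAll)
open Pool.Agent.T9h59.SQ (dsq Small count_rate)

/-- **Differences of square roots of consecutive primes along the orbits of Euler's function.** Let `f` be multiplicative and
positive, of at most polynomial growth, with `f p ≤ M p` at the large primes, and injective there. Let `G` have steps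
`≥ a > 0` and growth at most `v ^ d`, and let `η, κ ≥ 0`, `d s + κ < 1`, where
`s = 1/2 + η`, or `s = 0.306` if `η ≤ η₁` (`η₁ > 0` a constant). Then there is `K(m)` tending to infinity such
that for almost all `m`, for all `k ≤ K(m)`, with `v = f(φ_k(m))` (`orb f k m`), for ALL `n ≥ 1` with `|n - G v| ≤ v ^ κ`:
`√p_{n+1} - √p_n ≤ n^(-η)`. The identity, Euler's function and the sum of the divisors are examples of such functions `f`, and
`α v ^ d` with `α > 0`, `d ≥ 1` is an example of `G`. -/
theorem result :
    (∃ η₁ : ℝ, 0 < η₁ ∧ ∀ η s : ℝ, 0 ≤ η → (s = 1 / 2 + η ∨ η ≤ η₁ ∧ s = 0.306) →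
      ∀ f : ℕ → ℕ, LM f → ∀ (G : ℕ → ℝ) (d κ : ℝ), Expanding G d → 0 ≤ κ →
      d * s + κ < 1 → ∃ K : ℕ → ℕ, Tendsto K atTop atTop ∧
        AlmostAll (fun m => ∀ k ≤ K m, ∀ n : ℕ, 1 ≤ n →
          |(n : ℝ) - G (orb f k m)| ≤ (orb f k m : ℝ) ^ κ → dsq n ≤ (n : ℝ) ^ (-η))) ∧
    (LM (fun m => m) ∧ LM Nat.totient ∧ LM (fun m => ∑ d ∈ m.divisors, d)) ∧
    ∀ α d : ℝ, 0 < α → 1 ≤ d → Expanding (fun v => α * (v : ℝ) ^ d) d := by
  obtain ⟨η₁, hη₁, hr⟩ := count_rate
  refine ⟨⟨η₁, hη₁, fun η s hη hs f hf G d κ hG hκ h1 => ?_⟩, ⟨lm_id, lm_totient, lm_sigma⟩,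
    fun α d hα hd => expanding_pow hα hd⟩
  obtain ⟨hs0, hcount⟩ := hr η s hη hs
  obtain ⟨K, hK, h2⟩ := Pool.Agent.N760.IT.orbit_good_nat (fun _ => True) (Small η) hf hG (s := s)
    hs0 hκ h1 (fun ε hε => by
      obtain ⟨C, hC⟩ := hcount ε hε
      refine ⟨C, fun X hX => ?_⟩
      simpa using hC X hX)
  exact ⟨K, hK, Pool.Agent.N826.IT.Orb.almostAll_mono h2 (fun m hm k hk n hn h3 => hm k hk n hn trivial h3)⟩

end Pool.Agent.Results.MP_3998cf_nt.TotientOrbits
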